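import Pool.Agent.TH117.F5.Crys

/-!
# The crystalline Tate conjecture from the Tate conjecture for the classes in `Alg`
-/

set_option autoImplicit false
set_option linter.unusedSectionVars false
set_option linter.unusedVariables false

namespace Pool.Agent.X303.FFT

open NumberField Pool.Agent.W547.KB Module Pool.Agent.W495.TA Pool.Agent.TH117.F5
open scoped TensorProduct

variable {p : ℕ} [Fact p.Prime] {ν : PadicAlgCl p ≃+* ℂ}

/-- If all Tate classes over finite extensions are in `Alg Ω Y`, then the crystalline Tate conjecture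
is true for `Y`. -/
theorem crys_of {Y : RedAV p ν} (s : ℕ) (hs : 0 < s) {K₀ Ω V₀ : Type} [Field K₀] [CharZero K₀]
    [Field Ω] [IsAlgClosed Ω] [CharZero Ω] {m : ℕ}
    (hY : ∀ G : (TM Ω Y) [⋀^Fin (2 * m)]→ₗ[Ω] Ω, IsTateClass Ω Y s m G → Alg Ω Y (Fin (2 * m)) G)
    [Algebra K₀ Ω] [AddCommGroup V₀] [Module K₀ V₀] [FiniteDimensional K₀ V₀]
    (F₀ : V₀ →ₗ[K₀] V₀) (e : (Ω ⊗[K₀] V₀) ≃ₗ[Ω] TM Ω Y) (he : IsCrystalline Y s F₀ e)
    (A : Submodule K₀ (V₀ [⋀^Fin (2 * m)]→ₗ[K₀] K₀)) (hA : ContainsAlg s F₀ e A)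
    (f : V₀ [⋀^Fin (2 * m)]→ₗ[K₀] K₀) (hf : IsTateCrys F₀ ((p ^ Y.a) ^ s) m f) : f ∈ A := by
  obtain ⟨G, hG⟩ := Pool.Agent.W547.UB.exists_baseChange (K := Ω) f
  let G' : (TM Ω Y) [⋀^Fin (2 * m)]→ₗ[Ω] Ω := G.compLinearMap (e.symm : TM Ω Y →ₗ[Ω] Ω ⊗[K₀] V₀)
  have hG' : ∀ v, G' (fun k => e (v k)) = G v := by
    intro v
    change G (fun k => e.symm (e (v k))) = G v
    congr 1
    funext k
    exact e.symm_apply_apply _
  have hTate : IsTateClass Ω Y s m G' := by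
    have h1 : G.compLinearMap (F₀.baseChange Ω) = (((p : Ω) ^ Y.a) ^ (m * s)) • G := by
      apply Pool.Agent.W547.UB.eq_of_restr₀
      intro u
      have h2 : (G.compLinearMap (F₀.baseChange Ω)) (fun k => (1 : Ω) ⊗ₜ[K₀] u k) =
          G (fun k => (1 : Ω) ⊗ₜ[K₀] F₀ (u k)) := rfl
      rw [h2, hG, hf u, AlternatingMap.smul_apply, hG, map_mul, map_pow, smul_eq_mul]
      congr 1
      push_cast
      rw [← pow_mul, mul_comm s m]
    intro v
    have h3 : (fun k => (F Ω Y ^ s) (v k)) = fun k => e (F₀.baseChange Ω (e.symm (v k))) := by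
      funext k
      rw [he.comm, e.apply_symm_apply]
    have h4 : v = fun k => e (e.symm (v k)) := by
      funext k
      rw [e.apply_symm_apply]
    rw [h3, hG']
    conv_rhs => rw [h4, hG']
    exact congrArg (fun g => g (fun k => e.symm (v k))) h1
  refine hA f G' hf (hY G' hTate) fun u => ?_
  rw [hG' fun k => (1 : Ω) ⊗ₜ[K₀] u k]
  exact hG u

end Pool.Agent.X303.FFT
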